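import Pool.Agent.H27.L1.H90.GA.CBas

/-!
Row CCO of the board ga: continuity of the coefficient function at the unit matrix.
-/

set_option autoImplicit false

namespace Pool.Agent.H27.L1.H90.GA

open MeasureTheory Set Filter Topology
open Pool.Agent.H27.L1.H34.GM Pool.Agent.H27.L1.H34.GZ Pool.Agent.H27.L1.H34.GU Pool.Agent.H27.L1.H34.GA
open Pool.Agent.H27.L1.H74.GA

theorem open_det (m : ℕ) : IsOpen {v : V m | (mt v).det ≠ 0} :=
  isOpen_ne.preimage th1_cmt.matrix_det

theorem open_det' (m : ℕ) : IsOpen {g : Mat m | g.det ≠ 0} :=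
  isOpen_ne.preimage continuous_id.matrix_det

/-- CCO -/
theorem pf_CCO : T_VLM → T_CCO := by
  intro hV m N _ T D hS F lam hF η hη
  have hm1 := hS.one_le
  have hD := hS.dom
  have hfin := fin_D hV hm1 hD
  obtain ⟨B, hB⟩ := hF.bdd
  set v0 : V m := fun i j => (1 : Mat m) i j with hv0
  have hmt0 : (mt v0 : Mat m) = 1 := rfl
  have hopen : {v : V m | (mt v).det ≠ 0} ∈ 𝓝 v0 :=
    (open_det m).mem_nhds (by
      show (mt v0).det ≠ 0
      rw [hmt0, Matrix.det_one]
      exact one_ne_zero)
  have b1 : ∀ x, ∀ z ∈ D, ‖F (mt z) x‖ ≤ B := fun x z hz => hB _ x (det_ne_D hm1 hD hz)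
  have hca : ContinuousAt (fun v : V m => c1 D F (mt v)) v0 := by
    show ContinuousAt (fun v : V m => ∑ x, ∫ z in D, F ((mt z : Mat m) * (mt v)⁻¹) x *
      (starRingEnd ℂ) (F (mt z) x) ∂(hm m)) v0
    refine tendsto_finsetSum _ fun x _ => ?_
    refine continuousAt_of_dominated (bound := fun _ => B * B) ?_ ?_ (integrable_const _) ?_
    · filter_upwards [hopen] with v hv
      exact (meas_F hm1 hD (hF.cont x) (det_inv_ne hv)).mul
        (Complex.continuous_conj.comp_aestronglyMeasurable (meas_F1 hm1 hD (hF.cont x)))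
    · filter_upwards [hopen] with v hv
      refine (ae_restrict_iff' hD.meas).2 (Eventually.of_forall fun z hz => ?_)
      rw [norm_mul, RCLike.norm_conj]
      exact mul_le_mul (hB _ x (det_nz (det_ne_D hm1 hD hz) hv)) (b1 x z hz) (norm_nonneg _)
        ((norm_nonneg _).trans (b1 x z hz))
    · refine (ae_restrict_iff' hD.meas).2 (Eventually.of_forall fun z hz => ?_)
      have h2 : ContinuousAt (fun v : V m => (mt z : Mat m) * (mt v)⁻¹) v0 :=
        (cont_inv m (mt z)).continuousAt hopen
      have h3 : ContinuousAt (fun g : Mat m => F g x) ((mt z : Mat m) * (mt v0)⁻¹) := by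
        refine (hF.cont x).continuousAt ((open_det' m).mem_nhds ?_)
        refine det_nz (det_ne_D hm1 hD hz) ?_
        rw [hmt0, Matrix.det_one]
        exact one_ne_zero
      have h4 : ContinuousAt (fun v : V m => F ((mt z : Mat m) * (mt v)⁻¹) x) v0 :=
        ContinuousAt.comp (g := fun g : Mat m => F g x)
          (f := fun v : V m => (mt z : Mat m) * (mt v)⁻¹) h3 h2
      exact h4.mul continuousAt_const
  have h0 : c1 D F (mt v0) = (nU D F : ℂ) := by
    unfold c1 nU
    rw [Complex.ofReal_sum]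
    refine Finset.sum_congr rfl fun x _ => ?_
    rw [← integral_complex_ofReal]
    congr 1
    funext z
    rw [hmt0, inv_one, mul_one, Complex.mul_conj, Complex.normSq_eq_norm_sq]
  obtain ⟨δ, hδ, h1⟩ := Metric.continuousAt_iff.1 hca η hη
  refine ⟨δ / 2, half_pos hδ, fun w hw => ?_⟩
  have h2 : dist ((fun i j => w i j) : V m) v0 < δ := by
    rw [dist_eq_norm]
    have h3 : ‖((fun i j => w i j) : V m) - v0‖ = sz (w - 1) := rfl
    rw [h3]
    linarith
  have h4 := h1 h2
  rw [dist_eq_norm, h0] at h4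
  exact h4.le

end Pool.Agent.H27.L1.H90.GA
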