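import Pool.Agent.H27.L1.H74.GA.RRA

/-!
Lemmas for the rows CNR and CCO of the board ga: the coefficient function near the unit matrix.
-/

set_option autoImplicit false

namespace Pool.Agent.H27.L1.H90.GA

open MeasureTheory Set Filter Topology
open Pool.Agent.H27.L1.H34.GM Pool.Agent.H27.L1.H34.GZ Pool.Agent.H27.L1.H34.GU Pool.Agent.H27.L1.H34.GA
open Pool.Agent.H27.L1.H74.GA

theorem sz_nn {m : ℕ} (z : Mat m) : 0 ≤ sz z := norm_nonneg _

theorem le_sz {m : ℕ} (z : Mat m) (i j : Fin m) : |z i j| ≤ sz z := by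
  have h1 := norm_le_pi_norm (((fun i j => z i j) : V m)) i
  have h2 := norm_le_pi_norm (((fun i j => z i j) : V m) i) j
  exact h2.trans h1

theorem sz_le {m : ℕ} {z : Mat m} {c : ℝ} (hc : 0 ≤ c) (h : ∀ i j, |z i j| ≤ c) : sz z ≤ c := by
  unfold sz
  rw [pi_norm_le_iff_of_nonneg hc]
  intro i
  rw [pi_norm_le_iff_of_nonneg hc]
  intro j
  exact h i j

theorem sz_mul {m : ℕ} (a b : Mat m) : sz (a * b) ≤ m * sz a * sz b := by
  apply sz_le (mul_nonneg (mul_nonneg (Nat.cast_nonneg _) (sz_nn _)) (sz_nn _))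
  intro i j
  rw [Matrix.mul_apply]
  refine (Finset.abs_sum_le_sum_abs _ _).trans ?_
  calc ∑ l, |a i l * b l j| ≤ ∑ _l : Fin m, sz a * sz b := by
        apply Finset.sum_le_sum
        intro l _
        rw [abs_mul]
        exact mul_le_mul (le_sz _ _ _) (le_sz _ _ _) (abs_nonneg _) (sz_nn _)
    _ = m * sz a * sz b := by
        rw [Finset.sum_const, Finset.card_univ, Fintype.card_fin, nsmul_eq_mul]
        ring

theorem sz_neg_sub {m : ℕ} (a b : Mat m) : sz (-a - b) ≤ sz a + sz b := by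
  apply sz_le (add_nonneg (sz_nn _) (sz_nn _))
  intro i j
  rw [Matrix.sub_apply, Matrix.neg_apply]
  have h1 := le_sz a i j
  have h2 := le_sz b i j
  calc |-a i j - b i j| ≤ |-a i j| + |b i j| := abs_sub _ _
    _ ≤ sz a + sz b := by rw [abs_neg]; linarith

/-- the inverse of a matrix near the unit matrix -/
theorem inv_near {m : ℕ} (hm1 : 1 ≤ m) {w : Mat m} {t : ℝ} (hw : sz (w - 1) ≤ t)
    (ht : (m : ℝ) * t ≤ 1 / 2) : w.det ≠ 0 ∧ sz (w⁻¹ - 1) ≤ 2 * t := by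
  have h0 : 0 ≤ t := (sz_nn _).trans hw
  have hE : ∀ i j, |(w - 1) i j| ≤ t := fun i j => (le_sz _ i j).trans hw
  have hd : w.det ≠ 0 := by
    apply det_ne_zero_of_sum_row_lt_diag
    intro k
    have h1 : ∑ j ∈ Finset.univ.erase k, ‖w k j‖ ≤ ∑ _j ∈ Finset.univ.erase k, t := by
      apply Finset.sum_le_sum
      intro j hj
      have hjk : j ≠ k := (Finset.mem_erase.1 hj).1
      have h2 := hE k j
      rw [Matrix.sub_apply, Matrix.one_apply_ne hjk.symm, sub_zero] at h2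
      exact h2
    rw [Finset.sum_const, Finset.card_erase_of_mem (Finset.mem_univ k), Finset.card_univ,
      Fintype.card_fin, nsmul_eq_mul, Nat.cast_sub hm1, Nat.cast_one] at h1
    have h3 := hE k k
    rw [Matrix.sub_apply, Matrix.one_apply_eq] at h3
    have h4 : 1 - t ≤ ‖w k k‖ := by
      rw [Real.norm_eq_abs]
      exact le_trans (by linarith [(abs_le.1 h3).1]) (le_abs_self _)
    nlinarith
  refine ⟨hd, ?_⟩
  have hu : IsUnit w.det := isUnit_iff_ne_zero.2 hd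
  have h6 : w⁻¹ - 1 = -(w - 1) - (w - 1) * (w⁻¹ - 1) := by
    have h7 : w * w⁻¹ = 1 := Matrix.mul_nonsing_inv w hu
    have h8 : (w - 1) * (w⁻¹ - 1) = w * w⁻¹ - w - w⁻¹ + 1 := by noncomm_ring
    rw [h8, h7]
    abel
  have h9 : sz (w⁻¹ - 1) ≤ sz (w - 1) + sz ((w - 1) * (w⁻¹ - 1)) := by
    conv_lhs => rw [h6]
    exact sz_neg_sub _ _
  have h10 := sz_mul (w - 1) (w⁻¹ - 1)
  have h11 : m * sz (w - 1) * sz (w⁻¹ - 1) ≤ 1 / 2 * sz (w⁻¹ - 1) :=
    mul_le_mul_of_nonneg_right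
      (le_trans (mul_le_mul_of_nonneg_left hw (Nat.cast_nonneg m)) ht) (sz_nn _)
  linarith

theorem det_ne_D {m : ℕ} (hm1 : 1 ≤ m) {D : Set (V m)} (hD : DomZ m D) {z : V m} (hz : z ∈ D) :
    (mt z).det ≠ 0 := th1_det_ne hm1 (hD.shell z hz)

theorem det_inv_ne {m : ℕ} {w : Mat m} (hw : w.det ≠ 0) : (w⁻¹).det ≠ 0 := by
  rw [Matrix.det_nonsing_inv, Ring.inverse_eq_inv']
  exact inv_ne_zero hw

theorem meas_F {m N : ℕ} (hm1 : 1 ≤ m) {D : Set (V m)} (hD : DomZ m D)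
    {F : Mat m → VN m N → ℂ} {x : VN m N} (hF : ContinuousOn (fun g => F g x) {g | g.det ≠ 0})
    {w : Mat m} (hw : w.det ≠ 0) :
    AEStronglyMeasurable (fun z : V m => F ((mt z : Mat m) * w) x) ((hm m).restrict D) := by
  have h1 : ContinuousOn (fun z : V m => F ((mt z : Mat m) * w) x) D := by
    refine ContinuousOn.comp (g := fun g : Mat m => F g x) (t := {g | g.det ≠ 0}) hF ?_ ?_
    · have h2 : Continuous (fun z : V m => (mt z : Mat m) * w) :=
        th1_cmt.matrix_mul continuous_const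
      exact h2.continuousOn
    · intro z hz
      show ((mt z : Mat m) * w).det ≠ 0
      rw [Matrix.det_mul]
      exact mul_ne_zero (det_ne_D hm1 hD hz) hw
  exact h1.aestronglyMeasurable hD.meas

theorem meas_F1 {m N : ℕ} (hm1 : 1 ≤ m) {D : Set (V m)} (hD : DomZ m D)
    {F : Mat m → VN m N → ℂ} {x : VN m N} (hF : ContinuousOn (fun g => F g x) {g | g.det ≠ 0}) :
    AEStronglyMeasurable (fun z : V m => F (mt z) x) ((hm m).restrict D) := by
  have h := meas_F hm1 hD hF (w := 1) (by simp)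
  simpa only [mul_one] using h

theorem fin_D (hV : T_VLM) {m : ℕ} (hm1 : 1 ≤ m) {D : Set (V m)} (hD : DomZ m D) :
    IsFiniteMeasure ((hm m).restrict D) := by
  obtain ⟨C, K, -, h1⟩ := hV m hm1
  refine ⟨?_⟩
  rw [Measure.restrict_apply_univ]
  exact ((h1 D hD).1).trans_lt ENNReal.ofReal_lt_top

theorem int_mul {m : ℕ} {D : Set (V m)} (hD : DomZ m D) [IsFiniteMeasure ((hm m).restrict D)]
    {a b : V m → ℂ} (ha : AEStronglyMeasurable a ((hm m).restrict D))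
    (hb : AEStronglyMeasurable b ((hm m).restrict D)) {A B : ℝ} (hA : ∀ z ∈ D, ‖a z‖ ≤ A)
    (hB : ∀ z ∈ D, ‖b z‖ ≤ B) :
    Integrable (fun z => a z * (starRingEnd ℂ) (b z)) ((hm m).restrict D) := by
  have hm2 : AEStronglyMeasurable (fun z => a z * (starRingEnd ℂ) (b z)) ((hm m).restrict D) :=
    ha.mul (Complex.continuous_conj.comp_aestronglyMeasurable hb)
  refine Integrable.of_bound hm2 (A * B) ?_
  refine (ae_restrict_iff' hD.meas).2 (Eventually.of_forall fun z hz => ?_)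
  rw [norm_mul, RCLike.norm_conj]
  exact mul_le_mul (hA z hz) (hB z hz) (norm_nonneg _) ((norm_nonneg _).trans (hA z hz))

theorem int_sq {m : ℕ} {D : Set (V m)} (hD : DomZ m D) [IsFiniteMeasure ((hm m).restrict D)]
    {a : V m → ℂ} (ha : AEStronglyMeasurable a ((hm m).restrict D)) {A : ℝ}
    (hA : ∀ z ∈ D, ‖a z‖ ≤ A) :
    Integrable (fun z => ‖a z‖ ^ 2) ((hm m).restrict D) := by
  have hm2 : AEStronglyMeasurable (fun z => ‖a z‖ ^ 2) ((hm m).restrict D) := ha.norm.pow 2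
  refine Integrable.of_bound hm2 (A ^ 2) ?_
  refine (ae_restrict_iff' hD.meas).2 (Eventually.of_forall fun z hz => ?_)
  rw [Real.norm_eq_abs, abs_of_nonneg (sq_nonneg _)]
  exact pow_le_pow_left₀ (norm_nonneg _) (hA z hz) 2

/-- Cauchy-Schwarz with a parameter -/
theorem c1_sub (hV : T_VLM) {m N : ℕ} [NeZero N] {T : ℕ → Finset (ZM m)} {D : Set (V m)}
    (hS : SysZ m N T D) {F : Mat m → VN m N → ℂ} {lam : ℕ → ℂ} (hF : HecA m N T F lam)
    {w : Mat m} (hw : w.det ≠ 0) {t : ℝ} (ht : 0 < t) :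
    ‖c1 D F w - (nU D F : ℂ)‖ ≤ (t * ∑ x, ∫ z in D,
      ‖F ((mt z : Mat m) * w⁻¹) x - F (mt z) x‖ ^ 2 ∂(hm m) + t⁻¹ * nU D F) / 2 := by
  have hm1 := hS.one_le
  have hD := hS.dom
  have hfin := fin_D hV hm1 hD
  obtain ⟨B, hB⟩ := hF.bdd
  have hwi : (w⁻¹).det ≠ 0 := det_inv_ne hw
  have mA : ∀ x, AEStronglyMeasurable (fun z : V m => F ((mt z : Mat m) * w⁻¹) x)
      ((hm m).restrict D) := fun x => meas_F hm1 hD (hF.cont x) hwi
  have m1 : ∀ x, AEStronglyMeasurable (fun z : V m => F (mt z) x) ((hm m).restrict D) :=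
    fun x => meas_F1 hm1 hD (hF.cont x)
  have bA : ∀ x, ∀ z ∈ D, ‖F ((mt z : Mat m) * w⁻¹) x‖ ≤ B := fun x z hz =>
    hB _ x (det_nz (det_ne_D hm1 hD hz) hw)
  have b1 : ∀ x, ∀ z ∈ D, ‖F (mt z) x‖ ≤ B := fun x z hz => hB _ x (det_ne_D hm1 hD hz)
  have mD : ∀ x, AEStronglyMeasurable (fun z : V m => F ((mt z : Mat m) * w⁻¹) x - F (mt z) x)
      ((hm m).restrict D) := fun x => (mA x).sub (m1 x)
  have bD : ∀ x, ∀ z ∈ D, ‖F ((mt z : Mat m) * w⁻¹) x - F (mt z) x‖ ≤ B + B := fun x z hz =>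
    (norm_sub_le _ _).trans (add_le_add (bA x z hz) (b1 x z hz))
  have e1 : (nU D F : ℂ) = ∑ x, ∫ z in D, F (mt z) x * (starRingEnd ℂ) (F (mt z) x) ∂(hm m) := by
    unfold nU
    rw [Complex.ofReal_sum]
    refine Finset.sum_congr rfl fun x _ => ?_
    rw [← integral_complex_ofReal]
    congr 1
    funext z
    rw [Complex.mul_conj, Complex.normSq_eq_norm_sq]
  have e2 : c1 D F w - (nU D F : ℂ) = ∑ x, ∫ z in D,
      (F ((mt z : Mat m) * w⁻¹) x - F (mt z) x) * (starRingEnd ℂ) (F (mt z) x) ∂(hm m) := by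
    rw [e1]
    unfold c1
    rw [← Finset.sum_sub_distrib]
    refine Finset.sum_congr rfl fun x _ => ?_
    rw [← integral_sub (int_mul hD (mA x) (m1 x) (bA x) (b1 x))
      (int_mul hD (m1 x) (m1 x) (b1 x) (b1 x))]
    congr 1
    funext z
    ring
  rw [e2]
  unfold nU
  rw [Finset.mul_sum, Finset.mul_sum, ← Finset.sum_add_distrib, Finset.sum_div]
  refine (norm_sum_le _ _).trans (Finset.sum_le_sum fun x _ => ?_)
  have i1 := int_sq hD (mD x) (bD x)
  have i2 := int_sq hD (m1 x) (b1 x)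
  rw [← integral_const_mul, ← integral_const_mul, ← integral_add (i1.const_mul t)
    (i2.const_mul t⁻¹), ← integral_div]
  refine norm_integral_le_of_norm_le (((i1.const_mul t).add (i2.const_mul t⁻¹)).div_const 2)
    (Eventually.of_forall fun z => ?_)
  rw [norm_mul, RCLike.norm_conj]
  show _ ≤ (t * ‖F ((mt z : Mat m) * w⁻¹) x - F (mt z) x‖ ^ 2 + t⁻¹ * ‖F (mt z) x‖ ^ 2) / 2
  have h1 : 0 ≤ (t * ‖F ((mt z : Mat m) * w⁻¹) x - F (mt z) x‖ - ‖F (mt z) x‖) ^ 2 / t := by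
    positivity
  have h2 : (t * ‖F ((mt z : Mat m) * w⁻¹) x - F (mt z) x‖ - ‖F (mt z) x‖) ^ 2 / t =
      t * ‖F ((mt z : Mat m) * w⁻¹) x - F (mt z) x‖ ^ 2 + t⁻¹ * ‖F (mt z) x‖ ^ 2 -
        2 * (‖F ((mt z : Mat m) * w⁻¹) x - F (mt z) x‖ * ‖F (mt z) x‖) := by
    field_simp
    ring
  linarith

end Pool.Agent.H27.L1.H90.GA
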